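import Mathlib

/-!
# Two cofinality invariants of balleans can differ

On every infinite set `X` we exhibit a ballean with `cof_⋆ = 1` and `cof_* > |X|`.
The ballean is the one generated by all permutations of `X` together with the squares
`B × B` of sets `B` of cardinality less than that of `X`.
-/

namespace Pool.Agent.Results.MP_fb12c6_gt.CofinalityGap

open Cardinal Set

universe u

/-- The relation `E ∘ F⁻¹ = {(x, z) : there is y with (x, y) ∈ E and (z, y) ∈ F}`. -/
def compInv {X : Type u} (E F : Set (X × X)) : Set (X × X) :=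
  {p | ∃ y, (p.1, y) ∈ E ∧ (p.2, y) ∈ F}

/-- A ballean structure on a set `X`: a family of subsets of `X × X` (the entourages), each
containing the diagonal, such that for all entourages `E`, `F` some entourage contains
`E ∘ F⁻¹`, and such that the union of all entourages is `X × X`. -/
structure Ballean (X : Type u) where
  /-- the family of entourages -/
  entourages : Set (Set (X × X))
  diag_mem : ∀ E ∈ entourages, ∀ x : X, (x, x) ∈ E
  comp_mem : ∀ E ∈ entourages, ∀ F ∈ entourages, ∃ D ∈ entourages, compInv E F ⊆ D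
  sUnion_eq : ⋃₀ entourages = Set.univ

/-- `E[x] = {y : (x, y) ∈ E}`. -/
def ball {X : Type u} (E : Set (X × X)) (x : X) : Set X := {y | (x, y) ∈ E}

/-- `E[A] = ⋃_{a ∈ A} E[a]`. -/
def nbhd {X : Type u} (E : Set (X × X)) (A : Set X) : Set X := ⋃ a ∈ A, ball E a

namespace Ballean

variable {X : Type u}

/-- A set `B` is bounded if `B ⊆ E[x]` for some entourage `E` and some point `x`. -/
def IsBounded (𝓔 : Ballean X) (B : Set X) : Prop :=
  ∃ E ∈ 𝓔.entourages, ∃ x : X, B ⊆ ball E x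

/-- The square of a ballean: the ballean on `X × X` whose entourages are the sets
`{((x, y), (x', y')) : (x, x') ∈ E₁, (y, y') ∈ E₂}` with `E₁`, `E₂` entourages of `X`. -/
def square (𝓔 : Ballean X) : Ballean (X × X) where
  entourages := {D | ∃ E₁ ∈ 𝓔.entourages, ∃ E₂ ∈ 𝓔.entourages,
    D = {p | (p.1.1, p.2.1) ∈ E₁ ∧ (p.1.2, p.2.2) ∈ E₂}}
  diag_mem := by
    rintro E ⟨E₁, h₁, E₂, h₂, rfl⟩ x
    exact ⟨𝓔.diag_mem _ h₁ _, 𝓔.diag_mem _ h₂ _⟩
  comp_mem := by
    rintro E ⟨E₁, h₁, E₂, h₂, rfl⟩ F ⟨F₁, k₁, F₂, k₂, rfl⟩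
    obtain ⟨D₁, l₁, m₁⟩ := 𝓔.comp_mem _ h₁ _ k₁
    obtain ⟨D₂, l₂, m₂⟩ := 𝓔.comp_mem _ h₂ _ k₂
    refine ⟨_, ⟨D₁, l₁, D₂, l₂, rfl⟩, ?_⟩
    rintro ⟨⟨a, b⟩, ⟨c, d⟩⟩ ⟨⟨y, z⟩, ⟨hy₁, hy₂⟩, ⟨hz₁, hz₂⟩⟩
    exact ⟨m₁ ⟨y, hy₁, hz₁⟩, m₂ ⟨z, hy₂, hz₂⟩⟩
  sUnion_eq := by
    refine eq_univ_of_forall ?_
    rintro ⟨⟨a, b⟩, ⟨c, d⟩⟩
    have h₁ : (a, c) ∈ ⋃₀ 𝓔.entourages := by rw [𝓔.sUnion_eq]; trivial
    have h₂ : (b, d) ∈ ⋃₀ 𝓔.entourages := by rw [𝓔.sUnion_eq]; trivial
    obtain ⟨E₁, k₁, l₁⟩ := h₁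
    obtain ⟨E₂, k₂, l₂⟩ := h₂
    exact ⟨_, ⟨E₁, k₁, E₂, k₂, rfl⟩, l₁, l₂⟩

/-- `cof_*(𝓔)`: the least cardinality of a family `C` of entourages such that for every
entourage `E` there is `F ∈ C` with `E \ F` bounded in the square `X × X`. -/
noncomputable def cofAst (𝓔 : Ballean X) : Cardinal.{u} :=
  sInf {κ | ∃ C : Set (Set (X × X)), C ⊆ 𝓔.entourages ∧ #C = κ ∧
    ∀ E ∈ 𝓔.entourages, ∃ F ∈ C, 𝓔.square.IsBounded (E \ F)}

/-- `cof_*(𝓔[A])`: the least cardinality of a family `C` of entourages such that for every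
entourage `E` there is `F ∈ C` with `E[A] \ F[A]` bounded. -/
noncomputable def cofAstOn (𝓔 : Ballean X) (A : Set X) : Cardinal.{u} :=
  sInf {κ | ∃ C : Set (Set (X × X)), C ⊆ 𝓔.entourages ∧ #C = κ ∧
    ∀ E ∈ 𝓔.entourages, ∃ F ∈ C, 𝓔.IsBounded (nbhd E A \ nbhd F A)}

/-- `cof_⋆(𝓔)`: the supremum over all `A ⊆ X` of `cof_*(𝓔[A])`. -/
noncomputable def cofStar (𝓔 : Ballean X) : Cardinal.{u} :=
  ⨆ A : Set X, 𝓔.cofAstOn A

end Ballean

/-! ### The permutation ballean -/

/-- The relation attached to a finite set `F` of permutations and a set `B`: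
`(x, y)` with `y = g x` for some `g ∈ F`, or `x, y ∈ B`. -/
def permRel {X : Type u} (F : Finset (Equiv.Perm X)) (B : Set X) : Set (X × X) :=
  {p | (∃ g ∈ F, g p.1 = p.2) ∨ (p.1 ∈ B ∧ p.2 ∈ B)}

/-- The ballean of all permutations of an infinite set `X`. -/
def permBallean (X : Type u) [Infinite X] : Ballean X where
  entourages := {E | ∃ (F : Finset (Equiv.Perm X)) (B : Set X),
    (1 : Equiv.Perm X) ∈ F ∧ #B < #X ∧ E = permRel F B}
  diag_mem := by
    rintro E ⟨F, B, h1, hB, rfl⟩ x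
    exact Or.inl ⟨1, h1, rfl⟩
  comp_mem := by
    classical
    rintro E ⟨F, B, h1, hB, rfl⟩ E' ⟨F', B', h1', hB', rfl⟩
    have hω : ℵ₀ ≤ #X := Cardinal.infinite_iff.mp inferInstance
    set B'' : Set X := B ∪ B' ∪ (⋃ g ∈ F, (g : X → X) ⁻¹' B') ∪ (⋃ g ∈ F', (g : X → X) ⁻¹' B)
      with hB''
    have key : ∀ (G : Finset (Equiv.Perm X)) (D : Set X), #D < #X →
        #(⋃ g ∈ G, (g : X → X) ⁻¹' D : Set X) < #X := by
      intro G D hD
      induction G using Finset.induction_on with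
      | empty =>
        simp only [Finset.notMem_empty, iUnion_of_empty, iUnion_empty]
        simpa using (Cardinal.aleph0_pos.trans_le hω)
      | insert a s ha ih =>
        rw [Finset.set_biUnion_insert]
        refine (mk_union_le _ _).trans_lt (add_lt_of_lt hω ?_ ih)
        have : #((a : X → X) ⁻¹' D : Set X) = #D := by
          rw [← Equiv.image_symm_eq_preimage]
          exact mk_image_eq (Equiv.injective _)
        rwa [this]
    refine ⟨permRel (Finset.image₂ (fun g g' => g'⁻¹ * g) F F') B'', ⟨_, B'', ?_, ?_, rfl⟩, ?_⟩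
    · exact Finset.mem_image₂.mpr ⟨1, h1, 1, h1', by simp⟩
    · refine (mk_union_le _ _).trans_lt (add_lt_of_lt hω ?_ (key F' B hB))
      refine (mk_union_le _ _).trans_lt (add_lt_of_lt hω ?_ (key F B' hB'))
      exact (mk_union_le _ _).trans_lt (add_lt_of_lt hω hB hB')
    · rintro ⟨x, z⟩ ⟨y, hxy, hzy⟩
      rcases hxy with ⟨g, hg, hgx⟩ | ⟨hx, hy⟩
      · rcases hzy with ⟨g', hg', hgz⟩ | ⟨hz, hy'⟩
        · left
          refine ⟨g'⁻¹ * g, Finset.mem_image₂.mpr ⟨g, hg, g', hg', rfl⟩, ?_⟩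
          simp only at hgx hgz ⊢
          rw [Equiv.Perm.mul_apply, hgx, ← hgz, Equiv.Perm.inv_def, Equiv.symm_apply_apply]
        · right
          simp only at hgx hz hy' ⊢
          constructor
          · left; right
            simp only [mem_iUnion, mem_preimage]
            exact ⟨g, hg, by rw [hgx]; exact hy'⟩
          · left; left; right; exact hz
      · rcases hzy with ⟨g', hg', hgz⟩ | ⟨hz, hy'⟩
        · right
          simp only at hgz hx hy ⊢
          constructor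
          · left; left; left; exact hx
          · right
            simp only [mem_iUnion, mem_preimage]
            exact ⟨g', hg', by rw [hgz]; exact hy⟩
        · right
          exact ⟨Or.inl (Or.inl (Or.inl hx)), Or.inl (Or.inl (Or.inr hz))⟩
  sUnion_eq := by
    classical
    refine eq_univ_of_forall ?_
    rintro ⟨x, y⟩
    refine ⟨permRel {1, Equiv.swap x y} ∅, ⟨_, ∅, by simp, ?_, rfl⟩, ?_⟩
    · have hω : ℵ₀ ≤ #X := Cardinal.infinite_iff.mp inferInstance
      simpa using (Cardinal.aleph0_pos.trans_le hω)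
    · left
      exact ⟨Equiv.swap x y, by simp, by simp⟩

section

variable {X : Type u} [Infinite X]

lemma aleph0_le_mk' (X : Type u) [Infinite X] : ℵ₀ ≤ #X := Cardinal.infinite_iff.mp inferInstance

omit [Infinite X] in
lemma ball_permRel_subset (F : Finset (Equiv.Perm X)) (B : Set X) (x : X) :
    ball (permRel F B) x ⊆ ((fun g : Equiv.Perm X => g x) '' (F : Set (Equiv.Perm X))) ∪ B := by
  rintro y (⟨g, hg, hgx⟩ | ⟨_, hy⟩)
  · exact Or.inl ⟨g, hg, hgx⟩
  · exact Or.inr hy

/-- Bounded sets of the permutation ballean are the sets of small cardinality. -/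
lemma isBounded_iff (B : Set X) : (permBallean X).IsBounded B ↔ #B < #X := by
  have hω := aleph0_le_mk' X
  constructor
  · rintro ⟨E, ⟨F, B', h1, hB', rfl⟩, x, hx⟩
    refine (mk_le_mk_of_subset (hx.trans (ball_permRel_subset F B' x))).trans_lt ?_
    refine (mk_union_le _ _).trans_lt (add_lt_of_lt hω ?_ hB')
    refine lt_of_lt_of_le ?_ hω
    exact Cardinal.lt_aleph0_iff_set_finite.mpr (F.finite_toSet.image _)
  · intro hB
    obtain ⟨x⟩ : Nonempty X := inferInstance
    refine ⟨permRel {1} (B ∪ {x}), ⟨{1}, B ∪ {x}, by simp, ?_, rfl⟩, x, ?_⟩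
    · refine (mk_union_le _ _).trans_lt (add_lt_of_lt hω hB ?_)
      rw [mk_singleton]
      exact one_lt_aleph0.trans_le hω
    · intro y hy
      exact Or.inr ⟨Or.inr rfl, Or.inl hy⟩

/-- Every set of full cardinality is large in the permutation ballean. -/
lemma exists_nbhd_eq_univ (A : Set X) (hA : #A = #X) :
    ∃ E ∈ (permBallean X).entourages, nbhd E A = Set.univ := by
  classical
  have hω := aleph0_le_mk' X
  have hle : #(Aᶜ : Set X) ≤ #A := by rw [hA]; exact mk_set_le _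
  obtain ⟨e⟩ : Nonempty ((Aᶜ : Set X) ↪ A) := Cardinal.le_def _ _ |>.mp hle
  -- the involution interchanging `Aᶜ` with its image under `e`
  let s : X → X := fun x =>
    if h : x ∈ A then (if h' : ∃ z : (Aᶜ : Set X), (e z : X) = x then (h'.choose : X) else x)
    else (e ⟨x, h⟩ : X)
  have s1 : ∀ z : (Aᶜ : Set X), s z = e z := by
    intro z
    have hz : ¬ ((z : X) ∈ A) := z.2
    simp only [s, dif_neg hz]
  have s2 : ∀ z : (Aᶜ : Set X), s (e z) = z := by
    intro z
    have h' : ∃ w : (Aᶜ : Set X), (e w : X) = (e z : X) := ⟨z, rfl⟩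
    have : h'.choose = z := e.injective (Subtype.ext h'.choose_spec)
    simp only [s, dif_pos (e z).2, dif_pos h', this]
  have s3 : ∀ x ∈ A, (¬ ∃ z : (Aᶜ : Set X), (e z : X) = x) → s x = x := by
    intro x hx hx'
    simp only [s, dif_pos hx, dif_neg hx']
  have hs : Function.Involutive s := by
    intro x
    by_cases hx : x ∈ A
    · by_cases h' : ∃ z : (Aᶜ : Set X), (e z : X) = x
      · obtain ⟨z, rfl⟩ := h'
        rw [s2, s1]
      · rw [s3 x hx h', s3 x hx h']
    · have := s1 ⟨x, hx⟩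
      simp only at this
      rw [this, s2]
  refine ⟨permRel {1, hs.toPerm} ∅, ⟨_, ∅, by simp, ?_, rfl⟩, ?_⟩
  · simpa using (Cardinal.aleph0_pos.trans_le hω)
  · refine eq_univ_of_forall ?_
    intro y
    simp only [nbhd, mem_iUnion]
    by_cases hy : y ∈ A
    · exact ⟨y, hy, Or.inl ⟨1, by simp, rfl⟩⟩
    · refine ⟨e ⟨y, hy⟩, (e ⟨y, hy⟩).2, Or.inl ⟨hs.toPerm, by simp, ?_⟩⟩
      exact s2 ⟨y, hy⟩

lemma nbhd_small {E : Set (X × X)} (hE : E ∈ (permBallean X).entourages) (A : Set X)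
    (hA : #A < #X) : #(nbhd E A) < #X := by
  classical
  have hω := aleph0_le_mk' X
  obtain ⟨F, B, h1, hB, rfl⟩ := hE
  have hsub : nbhd (permRel F B) A ⊆ (⋃ g ∈ F, (g : X → X) '' A) ∪ B := by
    intro y hy
    simp only [nbhd, mem_iUnion] at hy
    obtain ⟨a, ha, hay⟩ := hy
    rcases hay with ⟨g, hg, hgx⟩ | ⟨_, hyB⟩
    · left
      simp only [mem_iUnion]
      exact ⟨g, hg, a, ha, hgx⟩
    · exact Or.inr hyB
  refine (mk_le_mk_of_subset hsub).trans_lt ?_
  refine (mk_union_le _ _).trans_lt (add_lt_of_lt hω ?_ hB)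
  clear hsub h1
  induction F using Finset.induction_on with
  | empty =>
    simp only [Finset.notMem_empty, iUnion_of_empty, iUnion_empty]
    simpa using (Cardinal.aleph0_pos.trans_le hω)
  | insert a s ha ih =>
    rw [Finset.set_biUnion_insert]
    exact (mk_union_le _ _).trans_lt (add_lt_of_lt hω (mk_image_le.trans_lt hA) ih)

lemma cofAstOn_eq_one (A : Set X) : (permBallean X).cofAstOn A = 1 := by
  have hω := aleph0_le_mk' X
  apply le_antisymm
  · apply csInf_le'
    by_cases hA : #A < #X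
    · obtain ⟨x⟩ : Nonempty X := inferInstance
      have hx : ((x, x) : X × X) ∈ ⋃₀ (permBallean X).entourages := by
        rw [(permBallean X).sUnion_eq]; trivial
      obtain ⟨E₀, hE₀, -⟩ := hx
      refine ⟨{E₀}, by simpa using hE₀, by simp, ?_⟩
      intro E hE
      refine ⟨E₀, rfl, ?_⟩
      rw [isBounded_iff]
      exact (mk_le_mk_of_subset sdiff_subset).trans_lt (nbhd_small hE A hA)
    · have hA' : #A = #X := le_antisymm (mk_set_le _) (not_lt.mp hA)
      obtain ⟨E₀, hE₀, hE₀A⟩ := exists_nbhd_eq_univ A hA'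
      refine ⟨{E₀}, by simpa using hE₀, by simp, ?_⟩
      intro E hE
      refine ⟨E₀, rfl, ?_⟩
      rw [isBounded_iff, hE₀A, sdiff_univ]
      simpa using (Cardinal.aleph0_pos.trans_le hω)
  · apply le_csInf
    · exact ⟨_, (permBallean X).entourages, subset_rfl, rfl, fun E hE => ⟨E, hE, by
        rw [isBounded_iff, sdiff_self]; simpa using (Cardinal.aleph0_pos.trans_le hω)⟩⟩
    · rintro κ ⟨C, hC, rfl, hdom⟩
      obtain ⟨x⟩ : Nonempty X := inferInstance
      have hx : ((x, x) : X × X) ∈ ⋃₀ (permBallean X).entourages := by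
        rw [(permBallean X).sUnion_eq]; trivial
      obtain ⟨E₀, hE₀, -⟩ := hx
      obtain ⟨F, hF, -⟩ := hdom E₀ hE₀
      have : Nonempty C := ⟨⟨F, hF⟩⟩
      exact Cardinal.one_le_iff_ne_zero.mpr (Cardinal.mk_ne_zero C)

lemma cofStar_eq_one : (permBallean X).cofStar = 1 := by
  unfold Ballean.cofStar
  simp only [cofAstOn_eq_one]
  exact ciSup_const

/-- If `E \ F` is bounded in the square, its first projection is small. -/
lemma fst_small {D : Set (X × X)} (h : (permBallean X).square.IsBounded D) :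
    #(Prod.fst '' D : Set X) < #X := by
  obtain ⟨E, ⟨E₁, h₁, E₂, h₂, rfl⟩, ⟨x, y⟩, hxy⟩ := h
  rw [← isBounded_iff]
  refine ⟨E₁, h₁, x, ?_⟩
  rintro _ ⟨⟨a, b⟩, hab, rfl⟩
  exact (hxy hab).1

end

/-- The key pigeonhole statement: fix a bijection `e : X × X ≃ X` and a group structure on `X`.
A single entourage can absorb only finitely many of the translations of a given row. -/
lemma finite_absorbed {X : Type u} [Infinite X] [AddGroup X] (e : X × X ≃ X) (i : X)
    (F : Finset (Equiv.Perm X)) (B : Set X) (hB : #B < #X) :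
    {a : X | #{x : X | ¬ ((∃ g ∈ F, g (e (i, x)) = e (i, a + x)) ∨ e (i, x) ∈ B)}
      < #X}.Finite := by
  classical
  have hω := aleph0_le_mk' X
  by_contra hinf
  obtain ⟨T, hT, hTcard⟩ := Set.Infinite.exists_subset_card_eq hinf (F.card + 1)
  have h1 : ∀ T' : Finset X, (T' : Set X) ⊆
        {a : X | #{x : X | ¬ ((∃ g ∈ F, g (e (i, x)) = e (i, a + x)) ∨ e (i, x) ∈ B)} < #X} →
        #(⋃ a ∈ T', {x : X | ¬ ((∃ g ∈ F, g (e (i, x)) = e (i, a + x)) ∨ e (i, x) ∈ B)} :
          Set X) < #X := by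
    intro T'
    induction T' using Finset.induction_on with
    | empty =>
      intro _
      simp only [Finset.notMem_empty, iUnion_of_empty, iUnion_empty]
      simpa using (Cardinal.aleph0_pos.trans_le hω)
    | insert a s ha ih =>
      intro hs
      rw [Finset.set_biUnion_insert]
      refine (mk_union_le _ _).trans_lt (add_lt_of_lt hω ?_ (ih ?_))
      · exact hs (by simp)
      · intro b hb
        exact hs (by simp only [Finset.coe_insert]; exact Or.inr hb)
  have h2 : #({x : X | e (i, x) ∈ B} : Set X) < #X := by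
    refine lt_of_le_of_lt ?_ hB
    refine Cardinal.mk_le_of_injective (f := fun x => ⟨e (i, x.1), x.2⟩) ?_
    intro a b hab
    simp only [Subtype.mk.injEq, EmbeddingLike.apply_eq_iff_eq, Prod.mk.injEq, true_and] at hab
    exact Subtype.ext hab
  have h3 : #(((⋃ a ∈ T, {x : X | ¬ ((∃ g ∈ F, g (e (i, x)) = e (i, a + x)) ∨
      e (i, x) ∈ B)}) ∪ {x : X | e (i, x) ∈ B}) : Set X) < #X :=
    (mk_union_le _ _).trans_lt (add_lt_of_lt hω (h1 T hT) h2)
  obtain ⟨x, hx⟩ : ∃ x : X, x ∉ ((⋃ a ∈ T, {x : X | ¬ ((∃ g ∈ F, g (e (i, x)) = e (i, a + x)) ∨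
      e (i, x) ∈ B)}) ∪ {x : X | e (i, x) ∈ B}) := by
    by_contra hcon
    have hcon' : ((⋃ a ∈ T, {x : X | ¬ ((∃ g ∈ F, g (e (i, x)) = e (i, a + x)) ∨
      e (i, x) ∈ B)}) ∪ {x : X | e (i, x) ∈ B}) = Set.univ := by
      refine eq_univ_of_forall fun x => ?_
      by_contra hx
      exact hcon ⟨x, hx⟩
    rw [hcon', mk_univ] at h3
    exact lt_irrefl _ h3
  have hx2 : e (i, x) ∉ B := fun h => hx (Or.inr h)
  have h4 : ∀ a : T, ∃ g : F, (g : Equiv.Perm X) (e (i, x)) = e (i, (a : X) + x) := by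
    intro a
    by_contra hcon
    apply hx
    left
    simp only [mem_iUnion]
    refine ⟨a, a.2, ?_⟩
    rintro (⟨g, hg, hgx⟩ | hB')
    · exact hcon ⟨⟨g, hg⟩, hgx⟩
    · exact hx2 hB'
  choose G hG using h4
  have hGinj : Function.Injective G := by
    intro a b hab
    have := hG a
    rw [hab, hG b] at this
    simp only [EmbeddingLike.apply_eq_iff_eq, Prod.mk.injEq, add_left_inj, true_and] at this
    exact Subtype.ext this.symm
  have := Fintype.card_le_of_injective G hGinj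
  simp only [Fintype.card_coe] at this
  omega

/-- A family of at most `|X|` entourages of the permutation ballean on `X` is not
dominating modulo bounded sets. -/
lemma lt_cofAst (X : Type u) [Infinite X] : #X < (permBallean X).cofAst := by
  classical
  have hω := aleph0_le_mk' X
  have hXX : #(X × X) = #X := by
    rw [mk_prod, lift_id, mul_eq_self hω]
  obtain ⟨e⟩ : Nonempty (X × X ≃ X) := Cardinal.eq.mp hXX
  obtain ⟨hfield⟩ : Nonempty (Field X) := Infinite.nonempty_field
  have hmem : (permBallean X).cofAst ∈ {κ | ∃ C : Set (Set (X × X)),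
      C ⊆ (permBallean X).entourages ∧ #C = κ ∧
        ∀ E ∈ (permBallean X).entourages, ∃ F ∈ C,
          (permBallean X).square.IsBounded (E \ F)} := by
    refine csInf_mem ⟨_, (permBallean X).entourages, subset_rfl, rfl, fun E hE => ⟨E, hE, ?_⟩⟩
    rw [sdiff_self]
    obtain ⟨x⟩ : Nonempty (X × X) := inferInstance
    have hx : (x, x) ∈ ⋃₀ (permBallean X).square.entourages := by
      rw [(permBallean X).square.sUnion_eq]; trivial
    obtain ⟨E₀, hE₀, -⟩ := hx
    exact ⟨E₀, hE₀, x, empty_subset _⟩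
  obtain ⟨C, hC, hCcard, hdom⟩ := hmem
  by_contra hle
  rw [not_lt, ← hCcard] at hle
  -- the family is nonempty, hence indexed by `X`
  obtain ⟨z⟩ : Nonempty X := inferInstance
  have hz : ((z, z) : X × X) ∈ ⋃₀ (permBallean X).entourages := by
    rw [(permBallean X).sUnion_eq]; trivial
  obtain ⟨E₀, hE₀, -⟩ := hz
  obtain ⟨F₀, hF₀, -⟩ := hdom E₀ hE₀
  have : Nonempty C := ⟨⟨F₀, hF₀⟩⟩
  obtain ⟨ι⟩ : Nonempty (C ↪ X) := (Cardinal.le_def _ _).mp hle
  let c : X → C := Function.invFun ι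
  have hc : Function.Surjective c := Function.invFun_surjective ι.injective
  have hrep : ∀ i : X, ∃ (F : Finset (Equiv.Perm X)) (B : Set X),
      (1 : Equiv.Perm X) ∈ F ∧ #B < #X ∧ (c i : Set (X × X)) = permRel F B :=
    fun i => hC (c i).2
  choose F B hF1 hB hcFB using hrep
  have hchoice : ∀ i : X, ∃ a : X,
      ¬ (#{x : X | ¬ ((∃ g ∈ F i, g (e (i, x)) = e (i, a + x)) ∨ e (i, x) ∈ B i)} < #X) := by
    intro i
    obtain ⟨a, ha⟩ := (finite_absorbed e i (F i) (B i) (hB i)).exists_notMem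
    exact ⟨a, ha⟩
  choose a ha using hchoice
  -- the permutation acting on the `i`-th row as the translation by `a i`
  let τ : Equiv.Perm (X × X) :=
    { toFun := fun p => (p.1, a p.1 + p.2)
      invFun := fun p => (p.1, -a p.1 + p.2)
      left_inv := fun p => by ext <;> simp
      right_inv := fun p => by ext <;> simp }
  let σ : Equiv.Perm X := (e.symm.trans τ).trans e
  have hσ : ∀ i x, σ (e (i, x)) = e (i, a i + x) := by
    intro i x
    simp [σ, τ]
  have hE : permRel {1, σ} ∅ ∈ (permBallean X).entourages := by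
    refine ⟨_, ∅, by simp, ?_, rfl⟩
    simpa using (Cardinal.aleph0_pos.trans_le hω)
  obtain ⟨D, hD, hbdd⟩ := hdom _ hE
  obtain ⟨i, hi⟩ := hc ⟨D, hD⟩
  have hD' : D = permRel (F i) (B i) := by rw [← hcFB i, hi]
  have hsmall := fst_small hbdd
  apply ha i
  refine lt_of_le_of_lt ?_ hsmall
  refine Cardinal.mk_le_of_injective (f := fun x => ⟨e (i, x.1), ?_⟩) ?_
  · refine ⟨(e (i, x.1), e (i, a i + x.1)), ⟨?_, ?_⟩, rfl⟩
    · exact Or.inl ⟨σ, by simp, hσ _ _⟩
    · rw [hD']
      rintro (⟨g, hg, hgx⟩ | ⟨hx, -⟩)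
      · exact x.2 (Or.inl ⟨g, hg, hgx⟩)
      · exact x.2 (Or.inr hx)
  · intro x y hxy
    have h := Subtype.ext_iff.mp hxy
    simp only [EmbeddingLike.apply_eq_iff_eq, Prod.mk.injEq, true_and] at h
    exact Subtype.ext h

/-- **Answer to Q1 (yes).** Every infinite set `X` carries a ballean with `cof_⋆ = 1` and
`cof_* > |X|`; in particular `cof_⋆ < cof_*`. -/
theorem result (X : Type u) [Infinite X] :
    ∃ 𝓔 : Ballean X, 𝓔.cofStar < 𝓔.cofAst ∧ 𝓔.cofStar = 1 ∧ #X < 𝓔.cofAst := by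
  refine ⟨permBallean X, ?_, cofStar_eq_one, lt_cofAst X⟩
  rw [cofStar_eq_one]
  exact (one_lt_aleph0.trans_le (aleph0_le_mk' X)).trans (lt_cofAst X)

end Pool.Agent.Results.MP_fb12c6_gt.CofinalityGap
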